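import Pool.Agent.H84.Sym.Defs2
import Pool.Agent.H91.Sym.A2
import Pool.Agent.H84.Sym.P6
import Pool.Agent.H78.Sym.J

/-!
Module P7 of the project SYM2 (MP_dc1397_gt): the theorem for potentials with a small fixed space.
-/

set_option autoImplicit false

open MeasureTheory Set Filter Topology
open scoped ContDiff Pointwise

namespace Pool.Agent.H84.Sym

open Pool.Agent.H84

universe v

variable {E : Type v} [NormedAddCommGroup E] [InnerProductSpace ℝ E]
    [FiniteDimensional ℝ E] [MeasurableSpace E] [BorelSpace E]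

namespace P7

/-! ### Scaling -/

theorem mu_add_const {V : E → ℝ} (a : ℝ) :
    mu (fun x => V x + a) = ENNReal.ofReal (Real.exp (-a)) • mu V := by
  unfold mu
  rw [← withDensity_smul']
  · congr 1
    funext x
    simp only [Pi.smul_apply, smul_eq_mul]
    rw [← ENNReal.ofReal_mul (Real.exp_pos _).le, ← Real.exp_add]
    congr 2
    ring
  · exact ENNReal.ofReal_ne_top

theorem gpc_smul {μ : Measure E} {L c : ℝ} (hc : 0 ≤ c) (h : GPC μ L) :
    GPC (ENNReal.ofReal c • μ) L := by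
  intro f hf hfc
  have h1 := h f hf hfc
  rw [integral_smul_measure, integral_smul_measure, integral_smul_measure]
  simp only [measureReal_ennreal_smul_apply, ENNReal.toReal_ofReal hc, smul_eq_mul]
  nlinarith [mul_le_mul_of_nonneg_left h1 (sq_nonneg c)]

theorem gpc_subsingleton {F : Type*} [NormedAddCommGroup F] [InnerProductSpace ℝ F]
    [MeasurableSpace F] [Subsingleton F] (μ : Measure F) [IsFiniteMeasure μ] {L : ℝ} (hL : 0 ≤ L) :
    GPC μ L := by
  intro f _ _
  have e : f = fun _ => f 0 := by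
    funext x
    rw [Subsingleton.elim x 0]
  have h1 : ∫ x, f x ^ 2 ∂μ = μ.real univ * f 0 ^ 2 := by
    rw [e]
    simp
  have h2 : ∫ x, f x ∂μ = μ.real univ * f 0 := by
    rw [e]
    simp
  rw [h1, h2]
  have h3 : 0 ≤ L * (μ.real univ * ∫ x, ‖fderiv ℝ f x‖ ^ 2 ∂μ) := by positivity
  calc _ = 0 := by ring
    _ ≤ _ := h3

/-! ### The potential on a section -/

theorem C_nonneg {U : E → ℝ} {t C : ℝ} (hU : Pot U t C) : 0 ≤ C := by
  have h := (norm_nonneg _).trans (hU.grad 0)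
  simpa using h

theorem pot_sec (S : Submodule ℝ E) {U : E → ℝ} {t C : ℝ} (hU : Pot U t C) (z : E) (a : ℝ) :
    Pot (fun x : S => sec S U z x + a) t (C * (1 + ‖z‖)) := by
  have hd : Differentiable ℝ U := hU.smooth.differentiable (by norm_num)
  have hd2 : Differentiable ℝ (fderiv ℝ U) :=
    (hU.smooth.fderiv_right (m := 1) (by norm_num)).differentiable (by norm_num)
  have hφ : ∀ x : S, HasFDerivAt (fun x : S => (x : E) + z) S.subtypeL x := fun x =>
    (S.subtypeL.hasFDerivAt).add_const z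
  have hsm : ContDiff ℝ 2 (fun x : S => sec S U z x + a) := by
    unfold sec
    exact (hU.smooth.comp (S.subtypeL.contDiff.add contDiff_const)).add contDiff_const
  have e1 : ∀ x : S, HasFDerivAt (fun x : S => sec S U z x + a)
      ((fderiv ℝ U ((x : E) + z)).comp S.subtypeL) x := by
    intro x
    exact ((hd ((x : E) + z)).hasFDerivAt.comp x (hφ x)).add_const a
  have e2 : fderiv ℝ (fun x : S => sec S U z x + a) = fun x : S =>
      (fderiv ℝ U ((x : E) + z)).comp S.subtypeL := funext fun x => (e1 x).fderiv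
  refine ⟨hsm, hU.pos, ?_, ?_⟩
  · intro x v
    have h3 : HasFDerivAt (fun y => fderiv ℝ (fun x : S => sec S U z x + a) y v)
        ((ContinuousLinearMap.apply ℝ ℝ v).comp
          (fderiv ℝ (fderiv ℝ (fun x : S => sec S U z x + a)) x)) x := by
      have h1 : DifferentiableAt ℝ (fderiv ℝ (fun x : S => sec S U z x + a)) x :=
        ((hsm.fderiv_right (m := 1) (by norm_num)).differentiable (by norm_num)) x
      exact (ContinuousLinearMap.apply ℝ ℝ v).hasFDerivAt.comp x h1.hasFDerivAt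
    have h4 : (fun y => fderiv ℝ (fun x : S => sec S U z x + a) y v)
        = fun y : S => fderiv ℝ U ((y : E) + z) (v : E) := by
      rw [e2]
      rfl
    have h5 : HasFDerivAt (fun y : S => fderiv ℝ U ((y : E) + z) (v : E))
        (((ContinuousLinearMap.apply ℝ ℝ (v : E)).comp
          (fderiv ℝ (fderiv ℝ U) ((x : E) + z))).comp S.subtypeL) x := by
      have h6 : HasFDerivAt (fun y => fderiv ℝ U y (v : E))
          ((ContinuousLinearMap.apply ℝ ℝ (v : E)).comp (fderiv ℝ (fderiv ℝ U) ((x : E) + z)))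
          ((x : E) + z) :=
        (ContinuousLinearMap.apply ℝ ℝ (v : E)).hasFDerivAt.comp ((x : E) + z)
          (hd2 ((x : E) + z)).hasFDerivAt
      exact h6.comp x (hφ x)
    rw [h4] at h3
    have h7 := h3.unique h5
    have h8 : fderiv ℝ (fderiv ℝ (fun x : S => sec S U z x + a)) x v v =
        fderiv ℝ (fderiv ℝ U) ((x : E) + z) (v : E) (v : E) := by
      have := congrArg (fun L : S →L[ℝ] ℝ => L v) h7
      exact this
    rw [h8]
    exact hU.hess _ _
  · intro x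
    rw [(e1 x).fderiv]
    have h1 := hU.grad ((x : E) + z)
    have h2 : ‖(fderiv ℝ U ((x : E) + z)).comp S.subtypeL‖ ≤ ‖fderiv ℝ U ((x : E) + z)‖ := by
      apply ContinuousLinearMap.opNorm_le_bound _ (norm_nonneg _)
      intro v
      exact (fderiv ℝ U ((x : E) + z)).le_opNorm (v : E)
    have hC := C_nonneg hU
    calc _ ≤ C * (1 + ‖(x : E) + z‖) := h2.trans h1
      _ ≤ C * (1 + (‖x‖ + ‖z‖)) := by
          gcongr
          exact norm_add_le _ _
      _ ≤ C * (1 + ‖z‖) * (1 + ‖x‖) := by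
          have h3 : 1 + (‖x‖ + ‖z‖) ≤ (1 + ‖z‖) * (1 + ‖x‖) := by
            nlinarith [norm_nonneg x, norm_nonneg z, mul_nonneg (norm_nonneg x) (norm_nonneg z)]
          rw [mul_assoc]
          exact mul_le_mul_of_nonneg_left h3 hC

/-! ### Restriction of the symmetries -/

theorem map_mem (S : Submodule ℝ E) (g : E ≃ₗᵢ[ℝ] E) (hg : ∀ z ∈ Sᗮ, g z = z) {x : E}
    (hx : x ∈ S) : g x ∈ S := by
  have h1 : g x ∈ Sᗮᗮ := by
    rw [Submodule.mem_orthogonal]
    intro z hz
    rw [← hg z hz, g.inner_map_map]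
    exact Submodule.inner_left_of_mem_orthogonal hx hz
  rwa [Submodule.orthogonal_orthogonal] at h1

theorem symm_fix (S : Submodule ℝ E) (g : E ≃ₗᵢ[ℝ] E) (hg : ∀ z ∈ Sᗮ, g z = z) :
    ∀ z ∈ Sᗮ, g.symm z = z := by
  intro z hz
  rw [LinearIsometryEquiv.symm_apply_eq]
  exact (hg z hz).symm

/-- the restriction of a symmetry -/
noncomputable def rs (S : Submodule ℝ E) (g : E ≃ₗᵢ[ℝ] E) (hg : ∀ z ∈ Sᗮ, g z = z) :
    S ≃ₗᵢ[ℝ] S where
  toFun x := ⟨g x, map_mem S g hg x.2⟩
  invFun x := ⟨g.symm x, map_mem S g.symm (symm_fix S g hg) x.2⟩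
  map_add' x y := by
    ext
    simp
  map_smul' c x := by
    ext
    simp
  left_inv x := by
    ext
    simp
  right_inv x := by
    ext
    simp
  norm_map' x := by
    change ‖g (x : E)‖ = ‖(x : E)‖
    exact g.norm_map _

theorem coe_rs (S : Submodule ℝ E) (g : E ≃ₗᵢ[ℝ] E) (hg : ∀ z ∈ Sᗮ, g z = z) (x : S) :
    ((rs S g hg x : S) : E) = g x := rfl

theorem mem_Mv_iff {F : Type*} [NormedAddCommGroup F] [InnerProductSpace ℝ F] (g : F ≃ₗᵢ[ℝ] F)
    (x : F) : x ∈ Mv (g.toLinearEquiv : F →ₗ[ℝ] F) ↔ ∀ v : F, g v = v → inner ℝ v x = (0:ℝ) := by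
  unfold Mv
  rw [Submodule.mem_orthogonal]
  constructor
  · intro h v hv
    apply h v
    rw [LinearMap.mem_ker, LinearMap.sub_apply]
    change g v - v = 0
    rw [hv, sub_self]
  · intro h v hv
    apply h v
    rw [LinearMap.mem_ker, LinearMap.sub_apply] at hv
    exact sub_eq_zero.1 hv

theorem Mv_rs (S : Submodule ℝ E) (g : E ≃ₗᵢ[ℝ] E) (hg : ∀ z ∈ Sᗮ, g z = z) :
    (Mv ((rs S g hg).toLinearEquiv : S →ₗ[ℝ] S)).map S.subtype
      = Mv (g.toLinearEquiv : E →ₗ[ℝ] E) := by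
  ext x
  rw [Submodule.mem_map]
  constructor
  · rintro ⟨y, hy, rfl⟩
    rw [mem_Mv_iff] at hy ⊢
    intro v hv
    -- decompose v
    obtain ⟨s, hs, w, hw, rfl⟩ := Submodule.exists_add_mem_mem_orthogonal (K := S) v
    have h1 : g s = s := by
      have := hv
      rw [map_add, hg w hw] at this
      exact add_right_cancel this
    have h2 := hy ⟨s, hs⟩ (by
      ext
      exact h1)
    rw [inner_add_left]
    have h3 : inner ℝ w ((S.subtype y : E)) = (0:ℝ) :=
      Submodule.inner_left_of_mem_orthogonal y.2 hw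
    rw [h3, add_zero]
    exact h2
  · intro hx
    rw [mem_Mv_iff] at hx
    have hxS : x ∈ S := by
      have h1 : x ∈ Sᗮᗮ := by
        rw [Submodule.mem_orthogonal]
        intro z hz
        exact hx z (hg z hz)
      rwa [Submodule.orthogonal_orthogonal] at h1
    refine ⟨⟨x, hxS⟩, ?_, rfl⟩
    rw [mem_Mv_iff]
    intro v hv
    have h1 : g (v : E) = v := by
      rw [← coe_rs S g hg v, hv]
    exact hx v h1

theorem finrank_Mv_rs (S : Submodule ℝ E) (g : E ≃ₗᵢ[ℝ] E) (hg : ∀ z ∈ Sᗮ, g z = z) :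
    Module.finrank ℝ (Mv ((rs S g hg).toLinearEquiv : S →ₗ[ℝ] S))
      = Module.finrank ℝ (Mv (g.toLinearEquiv : E →ₗ[ℝ] E)) := by
  rw [← Mv_rs S g hg]
  exact (Submodule.finrank_map_subtype_eq S _).symm

theorem norm_proj_rs (S : Submodule ℝ E) (g : E ≃ₗᵢ[ℝ] E) (hg : ∀ z ∈ Sᗮ, g z = z) (x : S) :
    ‖(Mv ((rs S g hg).toLinearEquiv : S →ₗ[ℝ] S)).orthogonalProjectionOnto x‖
      = ‖(Mv (g.toLinearEquiv : E →ₗ[ℝ] E)).orthogonalProjectionOnto (x : E)‖ := by
  have hmap := Mv_rs S g hg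
  set K' := Mv ((rs S g hg).toLinearEquiv : S →ₗ[ℝ] S) with hK'
  set K := Mv (g.toLinearEquiv : E →ₗ[ℝ] E) with hK
  have h1 : K.starProjection (x : E) = ((K'.starProjection x : S) : E) := by
    apply Submodule.eq_starProjection_of_mem_of_inner_eq_zero
    · rw [← hmap]
      exact ⟨K'.starProjection x, K'.starProjection_apply_mem x, rfl⟩
    · intro w hw
      rw [← hmap] at hw
      obtain ⟨w', hw', rfl⟩ := hw
      exact K'.starProjection_inner_eq_zero x w' hw'
  have h2 : ‖K.orthogonalProjectionOnto (x : E)‖ = ‖K.starProjection (x : E)‖ := by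
    rw [Submodule.starProjection_apply]
    rfl
  have h3 : ‖K'.orthogonalProjectionOnto x‖ = ‖K'.starProjection x‖ := by
    rw [Submodule.starProjection_apply]
    rfl
  rw [h2, h3, h1]
  rfl

end P7

theorem pot_main2 (S : Submodule ℝ E) {U : E → ℝ} {t C τ C₂ β : ℝ} {m : ℕ} (hU : Pot U t C)
    (hU2 : ∀ x, ‖fderiv ℝ (fderiv ℝ U) x‖ ≤ C₂) (hτ : 0 < τ)
    (hτU : ∀ x v : E, τ * ‖Sᗮ.orthogonalProjectionOnto v‖ ^ 2 ≤ fderiv ℝ (fderiv ℝ U) x v v)
    {G : Set (E ≃ₗᵢ[ℝ] E)} (hGf : G.Finite) (hinv : ∀ g ∈ G, ∀ x, U (g x) = U x)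
    (hGS : ∀ g ∈ G, ∀ z ∈ Sᗮ, g z = z) (hfix : ∀ p ∈ S, (∀ g ∈ G, g p = p) → p = 0)
    (hm1 : 1 ≤ m) (hβ : 0 < β)
    (hm : ∀ g ∈ G, Module.finrank ℝ (Mv (g.toLinearEquiv : E →ₗ[ℝ] E)) ≤ m)
    (hmom : ∀ g ∈ G, ∀ z : Sᗮ, ∫ x : S, Real.exp (2 * β *
      ‖(Mv (g.toLinearEquiv : E →ₗ[ℝ] E)).orthogonalProjectionOnto (x : E)‖) ∂(mu (sec S U z))
        ≤ 3 * (mu (sec S U z)).real univ) :
    GPC (mu U) (9360000 * m / β ^ 2 + 2 / τ) := by
  have hκ : (0 : ℝ) ≤ 3120000 * m / β ^ 2 := by positivity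
  have hD := thm_D S hU hU2 hτ hτU hinv hGS hfix hκ ?_
  · have e : (9360000 : ℝ) * m / β ^ 2 + 2 / τ = 3 * (3120000 * m / β ^ 2) + 2 / τ := by ring
    rw [e]
    exact hD
  intro z
  -- the section
  have hV0 : Pot (fun x : S => sec S U z x + 0) t (C * (1 + ‖(z : E)‖)) := P7.pot_sec S hU z 0
  have e0 : (fun x : S => sec S U z x + 0) = sec S U z := by
    funext x
    rw [add_zero]
  rw [e0] at hV0
  have hfin : IsFiniteMeasure (mu (sec S U z)) := isFinite_mu hV0
  rcases subsingleton_or_nontrivial S with hs | hs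
  · exact P7.gpc_subsingleton _ hκ
  have hZ : 0 < (mu (sec S U z)).real univ := mu_univ_pos hV0.smooth.continuous hfin
  set Z := (mu (sec S U z)).real univ with hZdef
  have hV := P7.pot_sec S hU z (Real.log Z)
  have hmu : mu (fun x : S => sec S U z x + Real.log Z)
      = ENNReal.ofReal Z⁻¹ • mu (sec S U z) := by
    rw [P7.mu_add_const, Real.exp_neg, Real.exp_log hZ]
  have hprob : IsProbabilityMeasure (mu (fun x : S => sec S U z x + Real.log Z)) := by
    constructor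
    rw [hmu, Measure.smul_apply, smul_eq_mul, ← ofReal_measureReal (measure_ne_top _ _), ← hZdef,
      ← ENNReal.ofReal_mul (inv_nonneg.2 hZ.le), inv_mul_cancel₀ hZ.ne', ENNReal.ofReal_one]
  set G' : Set (S ≃ₗᵢ[ℝ] S) := (fun g : G => P7.rs S (g : E ≃ₗᵢ[ℝ] E) (hGS g g.2)) '' univ with hG'
  have hmain : GPC (mu (fun x : S => sec S U z x + Real.log Z)) (3120000 * m / β ^ 2) := by
    refine pot_main (G := G') hV ?_ ?_ ?_ hm1 hβ ?_ ?_
    · have : Finite G := hGf
      exact Set.Finite.image _ Set.finite_univ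
    · rintro _ ⟨g, _, rfl⟩ x
      simp only
      unfold sec
      rw [P7.coe_rs]
      have h1 : (g : E ≃ₗᵢ[ℝ] E) (x : E) + (z : E) = (g : E ≃ₗᵢ[ℝ] E) ((x : E) + (z : E)) := by
        rw [map_add, hGS g g.2 z z.2]
      rw [h1, hinv g g.2]
    · intro p hp
      have h1 := hfix p p.2 fun g hg => by
        have h2 := hp (P7.rs S g (hGS g hg)) ⟨⟨g, hg⟩, mem_univ _, rfl⟩
        have h3 := congrArg (fun y : S => (y : E)) h2
        exact h3
      ext
      exact h1
    · rintro _ ⟨g, _, rfl⟩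
      rw [P7.finrank_Mv_rs]
      exact hm g g.2
    · rintro _ ⟨g, _, rfl⟩
      have h1 := hmom g g.2 z
      rw [hmu, integral_smul_measure, ENNReal.toReal_ofReal (inv_nonneg.2 hZ.le), smul_eq_mul]
      have e1 : ∀ x : S, ‖(Mv ((P7.rs S (g : E ≃ₗᵢ[ℝ] E) (hGS g g.2)).toLinearEquiv
          : S →ₗ[ℝ] S)).orthogonalProjectionOnto x‖
          = ‖(Mv ((g : E ≃ₗᵢ[ℝ] E).toLinearEquiv : E →ₗ[ℝ] E)).orthogonalProjectionOnto (x : E)‖ :=
        P7.norm_proj_rs S g (hGS g g.2)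
      simp only [e1]
      rw [inv_mul_le_iff₀ hZ, mul_comm Z 3]
      exact h1
  have hback : mu (sec S U z)
      = ENNReal.ofReal Z • mu (fun x : S => sec S U z x + Real.log Z) := by
    rw [hmu, smul_smul, ← ENNReal.ofReal_mul hZ.le, mul_inv_cancel₀ hZ.ne', ENNReal.ofReal_one,
      one_smul]
  rw [hback]
  exact P7.gpc_smul hZ.le hmain

end Pool.Agent.H84.Sym
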